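import Pool.Agent.Helper65.EV.St

/-!
# Project EV, module EX: exchangeability and measurability of the types at a real time
-/

set_option autoImplicit false

open MeasureTheory ProbabilityTheory Set Filter
open scoped ENNReal Topology
open Pool.Agent.Helper65.EV Pool.Agent.Helper84.Eve

namespace Pool.Agent.Helper99.EV

universe u

set_option linter.unusedSectionVars false

private lemma tendsto_errR {Λ : Measure ℝ} (hr : DustRegime Λ) (n : ℕ) {T : ℝ} (hT : 0 ≤ T) :
    Tendsto (fun m : ℕ => (m : ℝ≥0∞) *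
    (ENNReal.ofReal (T / m) * wS Λ n {K | K.Nonempty}) ^ 2) atTop (𝓝 0) := by
  set M := wS Λ n {K | K.Nonempty} with hM
  have hf : M ≠ ∞ := wS_ne_top hr.supp hr.m1_ne_top n
  have h2 : Tendsto (fun m : ℕ => ENNReal.ofReal (T ^ 2 / (m : ℝ))) atTop (𝓝 0) := by
    have := ENNReal.tendsto_ofReal (tendsto_const_div_atTop_nhds_zero_nat (T ^ 2))
    simpa using this
  have h3 := ENNReal.Tendsto.mul_const (b := M ^ 2) h2 (Or.inr (ENNReal.pow_ne_top hf))
  rw [zero_mul] at h3
  refine h3.congr' ?_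
  filter_upwards [eventually_ge_atTop 1] with m hm
  have hm0 : (0 : ℝ) < m := by exact_mod_cast hm
  rw [mul_pow, ← mul_assoc, ← ENNReal.ofReal_pow (by positivity), ← ENNReal.ofReal_natCast,
    ← ENNReal.ofReal_mul (by positivity)]
  congr 2
  field_simp

section prob

variable {Ω : Type u} [MeasurableSpace Ω] {P : Measure Ω} {Λ : Measure ℝ}

private lemma ae_gridR {N : Ω → Set Ev} [IsProbabilityMeasure P] [SFinite Λ]
    (hN : IsPoisson P N (intensity Λ))
    (hs : Λ (Icc 0 1)ᶜ = 0) (h1 : m1 Λ ≠ ∞) (n : ℕ) {T : ℝ} (hT : 0 ≤ T) :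
    ∀ᵐ ω ∂P, ∃ m : ℕ, 1 ≤ m ∧ Good (N ω) n m (T / m) := by
  rw [ae_iff]
  set M := wS Λ n {K | K.Nonempty} with hM
  have hf : M ≠ ∞ := wS_ne_top hs h1 n
  have hlim : Tendsto (fun m : ℕ => ENNReal.ofReal (T ^ 2 / (m : ℝ)) * M ^ 2) atTop
      (𝓝 0) := by
    have h2 : Tendsto (fun m : ℕ => ENNReal.ofReal (T ^ 2 / (m : ℝ))) atTop (𝓝 0) := by
      have := ENNReal.tendsto_ofReal (tendsto_const_div_atTop_nhds_zero_nat (T ^ 2))
      simpa using this
    have h3 := ENNReal.Tendsto.mul_const (b := M ^ 2) h2 (Or.inr (ENNReal.pow_ne_top hf))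
    simpa using h3
  apply le_antisymm _ zero_le
  apply ge_of_tendsto hlim
  filter_upwards [eventually_ge_atTop 1] with m hm
  have hm0 : (0 : ℝ) < m := by exact_mod_cast hm
  calc P {ω | ¬ ∃ m : ℕ, 1 ≤ m ∧ Good (N ω) n m (T / m)} ≤ P {ω | ¬ Good (N ω) n m (T / m)} := by
        apply measure_mono
        intro ω hω hg
        exact hω ⟨m, hm, hg⟩
    _ ≤ m * (ENNReal.ofReal (T / m) * M) ^ 2 := prob_not_good hN n m hf (by positivity)
    _ = _ := by
        rw [mul_pow, ← mul_assoc, ← ENNReal.ofReal_pow (by positivity), ← ENNReal.ofReal_natCast,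
          ← ENNReal.ofReal_mul (by positivity)]
        congr 2
        field_simp

variable [IsProbabilityMeasure P]

private lemma types_TR {L : Lookdown P Λ} {T : ℝ} (hT : 0 ≤ T) {n m : ℕ} (hm : 1 ≤ m) {ω : Ω}
    (hdyn : DynOK (L.N ω) (fun t i => L.ξ t i ω)) (hG : Good (L.N ω) n m (T / m)) (i : Fin n) :
    L.ξ T i ω = L.ξ 0 (ancL n (lst (L.N ω) n m (T / m)) i) ω := by
  have hm0 : (0 : ℝ) < m := by exact_mod_cast hm
  have h1 := types_eq hdyn (h := T / m) (by positivity) hG m 0 (by simp) i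
  rw [← lst_eq] at h1
  have h2 : (m : ℝ) * (T / m) = T := by field_simp
  rw [h2] at h1
  simpa using h1

private lemma upper_boundR [SFinite Λ] (L : Lookdown P Λ)
    (hf : ∀ n, wS Λ n {K | K.Nonempty} ≠ ∞)
    {T : ℝ} (hT : 0 ≤ T) (n m : ℕ) (hm : 1 ≤ m) {B : Fin n → Set ℝ}
    (hB : ∀ i, MeasurableSet (B i)) (τ : Fin n → Fin n) :
    P {ω | ∀ i, L.ξ T (τ i) ω ∈ B i} ≤
      wsum (wt Λ n (T / m)) n m (fun l => Fev L B (fun i => ancL n l (τ i))) +
        m * (ENNReal.ofReal (T / m) * wS Λ n {K | K.Nonempty}) ^ 2 := by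
  classical
  have hm0 : (0 : ℝ) < m := by exact_mod_cast hm
  set h : ℝ := T / m with hh
  have hh0 : 0 ≤ h := by positivity
  have hsub : {ω | ∀ i, L.ξ T (τ i) ω ∈ B i} ⊆
      ((⋃ k ∈ (Finset.univ : Finset (Fin m → PatT n)), (Gset L.N n m h k ∩
        {ω | ∀ i, L.ξ 0 (ancL n (List.ofFn fun i => (k i).1) (τ i)) ω ∈ B i})) ∪
      {ω | ¬ Good (L.N ω) n m h}) ∪ {ω | DynOK (L.N ω) (fun t i => L.ξ t i ω)}ᶜ := by
    intro ω hω
    by_cases h1 : DynOK (L.N ω) (fun t i => L.ξ t i ω)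
    · left
      by_cases h2 : Good (L.N ω) n m h
      · left
        have h3 := mem_Gset_of_good h2
        simp only [mem_iUnion, Finset.mem_univ, exists_true_left]
        refine ⟨_, h3, fun i => ?_⟩
        rw [← (Gset_good h3).2]
        have h4 := types_TR hT hm h1 h2 (τ i)
        rw [← h4]
        exact hω i
      · right; exact h2
    · right; exact h1
  have hD : P {ω | DynOK (L.N ω) (fun t i => L.ξ t i ω)}ᶜ = 0 := L.ae_dyn
  calc _ ≤ _ := measure_mono hsub
    _ ≤ (∑ k : Fin m → PatT n, P (Gset L.N n m h k ∩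
        {ω | ∀ i, L.ξ 0 (ancL n (List.ofFn fun i => (k i).1) (τ i)) ω ∈ B i})) +
        P {ω | ¬ Good (L.N ω) n m h} + P {ω | DynOK (L.N ω) (fun t i => L.ξ t i ω)}ᶜ := by
        refine (measure_union_le _ _).trans ?_
        gcongr
        refine (measure_union_le _ _).trans ?_
        gcongr
        exact measure_biUnion_finset_le _ _
    _ ≤ _ := by
        rw [hD, add_zero, ← sum_G_H L n m h B τ]
        gcongr with k _
        · exact (prob_G_H L n m (hf n) hh0 hB _ k).le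
        · exact prob_not_good L.poisson n m (hf n) hh0

private lemma lower_boundR [SFinite Λ] (L : Lookdown P Λ)
    (hf : ∀ n, wS Λ n {K | K.Nonempty} ≠ ∞)
    {T : ℝ} (hT : 0 ≤ T) (n m : ℕ) (hm : 1 ≤ m) {B : Fin n → Set ℝ}
    (hB : ∀ i, MeasurableSet (B i)) (τ : Fin n → Fin n) :
    wsum (wt Λ n (T / m)) n m (fun l => Fev L B (fun i => ancL n l (τ i))) ≤
      P {ω | ∀ i, L.ξ T (τ i) ω ∈ B i} := by
  classical
  have hm0 : (0 : ℝ) < m := by exact_mod_cast hm
  set h : ℝ := T / m with hh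
  have hh0 : 0 ≤ h := by positivity
  have hle1 : sigmaPoints L.N ≤ (inferInstance : MeasurableSpace Ω) := by
    apply iSup_le
    rintro ⟨A, hA⟩
    exact (L.poisson.measurable_count A hA).comap_le
  have hle2 : (⨆ i, MeasurableSpace.comap (L.ξ 0 i) inferInstance) ≤
      (inferInstance : MeasurableSpace Ω) := iSup_le fun i => (L.measurable_init i).comap_le
  rw [← sum_G_H L n m h B τ]
  calc _ = ∑ k : Fin m → PatT n, P (Gset L.N n m h k ∩
        {ω | ∀ i, L.ξ 0 (ancL n (List.ofFn fun i => (k i).1) (τ i)) ω ∈ B i}) := by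
        apply Finset.sum_congr rfl
        intro k _
        rw [prob_G_H L n m (hf n) hh0 hB _ k]
    _ = P (⋃ k ∈ (Finset.univ : Finset (Fin m → PatT n)), (Gset L.N n m h k ∩
        {ω | ∀ i, L.ξ 0 (ancL n (List.ofFn fun i => (k i).1) (τ i)) ω ∈ B i})) := by
        rw [measure_biUnion_finset]
        · intro k _ k' _ hkk
          exact (Gset_disjoint L.N n m h hkk).mono inter_subset_left inter_subset_left
        · intro k _
          exact (hle1 _ (Gset_measurable L.N n m h k)).inter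
            (hle2 _ (Hset_measurable L hB _))
    _ ≤ P ({ω | ∀ i, L.ξ T (τ i) ω ∈ B i} ∪ {ω | DynOK (L.N ω) (fun t i => L.ξ t i ω)}ᶜ) := by
        apply measure_mono
        intro ω hω
        simp only [mem_iUnion, Finset.mem_univ, exists_true_left] at hω
        obtain ⟨k, h1, h2⟩ := hω
        by_cases h3 : DynOK (L.N ω) (fun t i => L.ξ t i ω)
        · left
          intro i
          obtain ⟨h4, h5⟩ := Gset_good h1
          have h6 := types_TR hT hm h3 h4 (τ i)
          rw [h6, ← hh, h5]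
          exact h2 i
        · right; exact h3
    _ ≤ _ := by
        refine (measure_union_le _ _).trans ?_
        have hD : P {ω | DynOK (L.N ω) (fun t i => L.ξ t i ω)}ᶜ = 0 := L.ae_dyn
        rw [hD, add_zero]

private lemma exchR (hr : DustRegime Λ) (L : Lookdown P Λ) {T : ℝ} (hT : 0 ≤ T) (n : ℕ)
    {B : Fin n → Set ℝ} (hB : ∀ i, MeasurableSet (B i)) (σ : Equiv.Perm (Fin n)) :
    P {ω | ∀ i, L.ξ T (σ i) ω ∈ B i} ≤ P {ω | ∀ i : Fin n, L.ξ T i ω ∈ B i} := by
  have := hr.finite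
  have hs := hr.supp
  have hf := fun n => wS_ne_top hs hr.m1_ne_top n
  have hlim := (tendsto_errR hr n hT).const_add (P {ω | ∀ i : Fin n, L.ξ T i ω ∈ B i})
  rw [add_zero] at hlim
  apply ge_of_tendsto hlim
  filter_upwards [eventually_ge_atTop 1] with m hm
  refine (upper_boundR L hf hT n m hm hB σ).trans ?_
  gcongr
  rw [wsum_perm hs n _ m σ (Fev L B) (fun π A => Fev_perm L hB π A)]
  exact lower_boundR L hf hT n m hm hB id

private lemma aemeasR (hr : DustRegime Λ) (L : Lookdown P Λ) {T : ℝ} (hT : 0 ≤ T) (i : ℕ) :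
    AEMeasurable (L.ξ T i) P := by
  have := hr.finite
  have hs := hr.supp
  set S : (Σ m : ℕ, (Fin m → PatT (i + 1))) → Set Ω := fun p =>
    if 1 ≤ p.1 then Gset L.N (i + 1) p.1 (T / p.1) p.2 else ∅ with hS
  have hle1 : sigmaPoints L.N ≤ (inferInstance : MeasurableSpace Ω) := by
    apply iSup_le
    rintro ⟨A, hA⟩
    exact (L.poisson.measurable_count A hA).comap_le
  have hcover : ∀ᵐ ω ∂P, ω ∈ ⋃ p, S p := by
    filter_upwards [ae_gridR L.poisson hs hr.m1_ne_top (i + 1) hT] with ω hω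
    obtain ⟨m, hm, hG⟩ := hω
    refine mem_iUnion.2 ⟨⟨m, fun r => ⟨kap (L.N ω) (i + 1) (r * (T / m)) ((r + 1) * (T / m)),
      kap_mem _ _ _ _⟩⟩, ?_⟩
    simp only [hS]
    rw [if_pos hm]
    exact mem_Gset_of_good hG
  have hres : P.restrict (⋃ p, S p) = P := Measure.restrict_eq_self_of_ae_mem hcover
  suffices h : AEMeasurable (L.ξ T i) (P.restrict (⋃ p, S p)) by rwa [hres] at h
  rw [aemeasurable_iUnion_iff]
  rintro ⟨m, k⟩
  by_cases hm : 1 ≤ m
  · have hSeq : S ⟨m, k⟩ = Gset L.N (i + 1) m (T / m) k := by simp only [hS]; rw [if_pos hm]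
    rw [hSeq]
    set j := ancL (i + 1) (List.ofFn fun i => (k i).1) (Fin.last i) with hj
    refine ⟨L.ξ 0 j, L.measurable_init j, ?_⟩
    have hmeas : MeasurableSet (Gset L.N (i + 1) m (T / m) k) :=
      hle1 _ (Gset_measurable L.N (i + 1) m (T / m) k)
    rw [Filter.EventuallyEq, ae_restrict_iff' hmeas]
    filter_upwards [L.ae_dyn] with ω hdyn hω
    obtain ⟨h1, h2⟩ := Gset_good hω
    have h3 := types_TR hT hm hdyn h1 (Fin.last i)
    rw [h2] at h3
    simpa using h3
  · have hSeq : S ⟨m, k⟩ = ∅ := by simp only [hS]; rw [if_neg hm]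
    rw [hSeq]; simp

end prob

theorem hEX : EX.{u} where
  exch := fun hr _ _ _ _ L _ hT n _ hB σ => exchR hr L hT n hB σ
  meas := fun hr _ _ _ _ L _ hT i => aemeasR hr L hT i

end Pool.Agent.Helper99.EV
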